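import Pool.Agent.Run7.h865.LW.Iface

/-!
# Piece BAS of the project LW (MP_efea25_an): basic properties of the product `B J`
-/

set_option autoImplicit false

open Polynomial Finset

namespace Pool.Agent.Run7.h194.LW

open Pool.Agent.Run7.h865.LW

theorem one_sub_ne (n : ℕ) : (1 - X ^ (n + 1) : ℤ[X]) ≠ 0 := by
  intro h
  have := congrArg (fun p : ℤ[X] => p.coeff 0) h
  simp at this

theorem B_coeff_zero (J : ℕ) : (B J).coeff 0 = 1 := by
  rw [coeff_zero_eq_eval_zero, B, eval_prod]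
  apply prod_eq_one
  intro k _
  simp

theorem B_ne (J : ℕ) : B J ≠ 0 := by
  intro h
  have := B_coeff_zero J
  rw [h] at this
  simp at this

theorem lc_one_sub (n : ℕ) : (1 - X ^ (n + 1) : ℤ[X]).leadingCoeff = -1 := by
  have h : (1 - X ^ (n + 1) : ℤ[X]) = -(X ^ (n + 1) - 1) := by ring
  rw [h, leadingCoeff_neg]
  have := leadingCoeff_X_pow_sub_one (R := ℤ) (n := n + 1) (Nat.succ_pos n)
  rw [this]

theorem nd_one_sub (n : ℕ) : (1 - X ^ (n + 1) : ℤ[X]).natDegree = n + 1 := by
  have h : (1 - X ^ (n + 1) : ℤ[X]) = -(X ^ (n + 1) - C 1) := by simp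
  rw [h, natDegree_neg, natDegree_X_pow_sub_C]

theorem B_natDegree (J : ℕ) : D J = ∑ k ∈ range J, (J - 1 - k) * (k + 1) := by
  rw [D, B, natDegree_prod]
  · apply sum_congr rfl
    intro k _
    rw [natDegree_pow, nd_one_sub]
  · intro k _
    exact pow_ne_zero _ (one_sub_ne k)

theorem B_dvd_expand (J a : ℕ) : B J ∣ expand ℤ a (B J) := by
  rw [B, map_prod]
  apply prod_dvd_prod_of_dvd
  intro k _
  rw [map_pow]
  apply pow_dvd_pow_of_dvd
  rw [map_sub, map_one, map_pow, expand_X, ← pow_mul, mul_comm, pow_mul]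
  simpa using sub_dvd_pow_sub_pow (1 : ℤ[X]) (X ^ (k + 1)) a

theorem sum_exp (J : ℕ) : ∑ k ∈ range J, (J - 1 - k) = J * (J - 1) / 2 := by
  rw [sum_range_reflect (fun k => k) J, sum_range_id]

theorem X_sub_one_dvd (n : ℕ) : (X - 1 : ℤ[X]) ∣ 1 - X ^ (n + 1) := by
  have h := sub_dvd_pow_sub_pow (X : ℤ[X]) 1 (n + 1)
  rw [one_pow] at h
  rw [← dvd_neg]
  simpa using h

theorem t_BAS : S_BAS := by
  intro J hJ
  refine ⟨B_coeff_zero J, ?_, ?_, ?_, fun a _ => B_dvd_expand J a, ?_⟩
  · rw [B, leadingCoeff_prod, abs_prod]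
    apply prod_eq_one
    intro k _
    rw [leadingCoeff_pow, lc_one_sub, abs_pow, abs_neg, abs_one, one_pow]
  · rw [B_natDegree]
    have h0 : 0 ∈ range J := mem_range.2 (by omega)
    have h1 := single_le_sum (f := fun k => (J - 1 - k) * (k + 1)) (s := range J)
      (fun i _ => Nat.zero_le _) h0
    simp only [Nat.sub_zero, zero_add, mul_one] at h1
    omega
  · rw [B_natDegree]
    calc ∑ k ∈ range J, (J - 1 - k) * (k + 1) ≤ ∑ k ∈ range J, J * J := by
          apply sum_le_sum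
          intro k hk
          rw [mem_range] at hk
          exact Nat.mul_le_mul (by omega) (by omega)
      _ = J ^ 3 := by
          rw [sum_const, card_range, smul_eq_mul]
          ring
  · rw [← sum_exp, ← prod_pow_eq_pow_sum, B]
    apply prod_dvd_prod_of_dvd
    intro k _
    exact pow_dvd_pow_of_dvd (X_sub_one_dvd k) _

end Pool.Agent.Run7.h194.LW
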