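import Pool.Agent.Run7.h865.LW.Iface

/-!
# Piece NUM of the project LW (MP_efea25_an): the numerical inequalities
-/

set_option autoImplicit false

namespace Pool.Agent.Run7.h194.LW

open Pool.Agent.Run7.h865.LW

/-- The final inequality in logarithmic form. -/
theorem final_ineq (J N : ℕ) (hJ : 60 ≤ J) (hN : J ^ (8 * J) ≤ N) :
    109 * (J : ℝ) ^ 39 * (Real.log (4 * N)) ^ 2 *
      Real.exp (2 * ((J : ℝ) * Real.log J + 2 * J)) ≤ N := by
  have hJr : (60 : ℝ) ≤ J := by exact_mod_cast hJ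
  have hJ0 : (0 : ℝ) < J := by linarith
  set L := Real.log J with hL
  have hL2 : (2 : ℝ) ≤ L := by
    rw [hL, Real.le_log_iff_exp_le hJ0]
    have h1 : Real.exp 2 = Real.exp 1 * Real.exp 1 := by rw [← Real.exp_add]; norm_num
    have h2 := Real.exp_one_lt_d9
    rw [h1]
    nlinarith [Real.exp_pos 1]
  have hNr : ((J : ℝ)) ^ (8 * J) ≤ N := by exact_mod_cast hN
  have hN0 : (0 : ℝ) < N := lt_of_lt_of_le (by positivity) hNr
  set t := Real.log N with ht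
  have ht8 : 8 * (J : ℝ) * L ≤ t := by
    have h1 := Real.log_le_log (by positivity) hNr
    rw [Real.log_pow] at h1
    push_cast at h1
    exact h1
  have hNt : (N : ℝ) = Real.exp t := (Real.exp_log hN0).symm
  have hlog4 : Real.log (4 * N) ≤ 8 * Real.exp (t / 8) := by
    rw [Real.log_mul (by norm_num) hN0.ne']
    have h1 : Real.log 4 ≤ 3 := by
      have := Real.log_le_sub_one_of_pos (show (0 : ℝ) < 4 by norm_num)
      linarith
    have h2 := Real.add_one_le_exp (t / 8)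
    linarith
  have hlog0 : 0 ≤ Real.log (4 * N) := by
    apply Real.log_nonneg
    have h1 : (1 : ℝ) ≤ (J : ℝ) ^ (8 * J) := one_le_pow₀ (by linarith)
    linarith
  have hsq : Real.log (4 * N) ^ 2 ≤ 64 * Real.exp (t / 4) := by
    calc Real.log (4 * N) ^ 2 ≤ (8 * Real.exp (t / 8)) ^ 2 := pow_le_pow_left₀ hlog0 hlog4 2
      _ = 64 * Real.exp (t / 4) := by
          rw [mul_pow, ← Real.exp_nat_mul]
          norm_num
          ring_nf
  have hJ39 : (J : ℝ) ^ 39 = Real.exp (39 * L) := by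
    rw [show (39 : ℝ) * L = ((39 : ℕ) : ℝ) * L by norm_num, Real.exp_nat_mul, Real.exp_log hJ0]
  have h7000 : (6976 : ℝ) ≤ Real.exp 10 := by
    have h1 : Real.exp 10 = Real.exp 1 ^ 10 := by rw [← Real.exp_nat_mul]; norm_num
    have h2 : (2.7 : ℝ) ≤ Real.exp 1 := by
      have := Real.exp_one_gt_d9
      linarith
    rw [h1]
    calc (6976 : ℝ) ≤ 2.7 ^ 10 := by norm_num
      _ ≤ _ := pow_le_pow_left₀ (by norm_num) h2 10
  calc 109 * (J : ℝ) ^ 39 * (Real.log (4 * N)) ^ 2 * Real.exp (2 * ((J : ℝ) * L + 2 * J))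
      ≤ 109 * (J : ℝ) ^ 39 * (64 * Real.exp (t / 4)) * Real.exp (2 * ((J : ℝ) * L + 2 * J)) := by
        gcongr
    _ = 6976 * (Real.exp (39 * L) * Real.exp (t / 4) * Real.exp (2 * ((J : ℝ) * L + 2 * J))) := by
        rw [hJ39]; ring
    _ ≤ Real.exp 10 * (Real.exp (39 * L) * Real.exp (t / 4) *
          Real.exp (2 * ((J : ℝ) * L + 2 * J))) := by
        gcongr
    _ = Real.exp (10 + 39 * L + t / 4 + 2 * ((J : ℝ) * L + 2 * J)) := by
        rw [← Real.exp_add, ← Real.exp_add, ← Real.exp_add]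
        congr 1
        ring
    _ ≤ Real.exp t := by
        apply Real.exp_le_exp.2
        have h1 : 39 * L ≤ J * L := by nlinarith
        have h2 : 4 * (J : ℝ) ≤ 2 * (J * L) := by nlinarith
        have h3 : (10 : ℝ) ≤ J * L := by nlinarith
        linarith
    _ = N := hNt.symm

theorem t_NUM : S_NUM := by
  refine ⟨60, by norm_num, ?_⟩
  intro J N d hJ hN hd1 hd3
  have hJr : (60 : ℝ) ≤ J := by exact_mod_cast hJ
  have hJ1 : (1 : ℝ) ≤ J := by linarith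
  have hJ0 : (0 : ℝ) < J := by linarith
  have hfin := final_ineq J N hJ hN
  have hNr : ((J : ℝ)) ^ (8 * J) ≤ N := by exact_mod_cast hN
  have hN60 : (60 : ℝ) ≤ N := by
    refine le_trans ?_ hNr
    calc (60 : ℝ) ≤ J := hJr
      _ = (J : ℝ) ^ 1 := (pow_one _).symm
      _ ≤ (J : ℝ) ^ (8 * J) := pow_le_pow_right₀ hJ1 (by omega)
  have hlog1 : 1 ≤ Real.log (4 * N) := by
    rw [Real.le_log_iff_exp_le (by linarith)]
    have := Real.exp_one_lt_d9
    linarith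
  set E := Real.exp ((J : ℝ) / 2 * Real.log J + J) with hE
  have hE2 : E ^ 2 = Real.exp ((J : ℝ) * Real.log J + 2 * J) := by
    rw [hE, ← Real.exp_nat_mul]
    congr 1
    push_cast
    ring
  have hE1 : 1 ≤ E := by
    rw [hE]
    apply Real.one_le_exp
    have := Real.log_nonneg hJ1
    positivity
  set ℓ := Real.log (4 * N) with hℓ
  set Y : ℝ := (J : ℝ) ^ 12 * ℓ * E ^ 2 with hY
  have hJ12 : (1 : ℝ) ≤ (J : ℝ) ^ 12 := one_le_pow₀ hJ1
  have hE21 : 1 ≤ E ^ 2 := one_le_pow₀ hE1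
  have hY1 : 1 ≤ Y := by
    rw [hY]
    have h1 : (1 : ℝ) ≤ (J : ℝ) ^ 12 * ℓ := by nlinarith
    nlinarith
  have hd3r : (d : ℝ) ≤ (J : ℝ) ^ 3 := by exact_mod_cast hd3
  have hd1r : (1 : ℝ) ≤ d := by exact_mod_cast hd1
  have hJ3 : (1 : ℝ) ≤ (J : ℝ) ^ 3 := one_le_pow₀ hJ1
  have hd2 : ((d : ℝ) + 1) ^ 2 ≤ 4 * (J : ℝ) ^ 6 := by
    have h1 : (d : ℝ) + 1 ≤ 2 * (J : ℝ) ^ 3 := by linarith
    calc ((d : ℝ) + 1) ^ 2 ≤ (2 * (J : ℝ) ^ 3) ^ 2 := pow_le_pow_left₀ (by linarith) h1 2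
      _ = 4 * (J : ℝ) ^ 6 := by ring
  have hJ6 : (1 : ℝ) ≤ (J : ℝ) ^ 6 := one_le_pow₀ hJ1
  have hJY : 1 ≤ (J : ℝ) ^ 6 * Y := by nlinarith
  set a : ℝ := 4 * (((d : ℝ) + 1) ^ 2 * Y) with ha
  set r : ℝ := ((d : ℝ) + 1) ^ 2 * Y with hr
  have hr0 : 0 ≤ r := by rw [hr]; positivity
  have hrle : r ≤ 4 * ((J : ℝ) ^ 6 * Y) := by
    rw [hr]
    have := mul_le_mul_of_nonneg_right hd2 (show 0 ≤ Y by linarith)
    linarith
  have hale : a ≤ 16 * ((J : ℝ) ^ 6 * Y) := by rw [ha]; linarith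
  have ha0 : 0 ≤ a := by rw [ha]; linarith
  refine ⟨⌊a⌋₊ + 1, ⌈r⌉₊, by omega, ?_, ?_, ?_⟩
  · have h1 := Nat.lt_floor_add_one a
    push_cast
    refine lt_of_eq_of_lt ?_ h1
    rw [ha, hr, hY]
    ring
  · have h1 := Nat.le_ceil r
    refine le_trans (le_of_eq ?_) h1
    rw [hr, hY]
    ring
  · have hA : ((⌊a⌋₊ + 1 : ℕ) : ℝ) ≤ 17 * ((J : ℝ) ^ 6 * Y) := by
      have h1 := Nat.floor_le ha0
      push_cast
      linarith
    have hR : ((⌈r⌉₊ : ℕ) : ℝ) ≤ 5 * ((J : ℝ) ^ 6 * Y) := by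
      have h1 := (Nat.ceil_lt_add_one hr0).le
      linarith
    have hgoal : ((d + ((⌊a⌋₊ + 1) * d + 1) * (⌈r⌉₊ + 1) : ℕ) : ℝ) ≤ (N : ℝ) := by
      rw [Nat.cast_add, Nat.cast_mul, Nat.cast_add, Nat.cast_mul, Nat.cast_one,
        Nat.cast_add ⌈r⌉₊ 1, Nat.cast_one]
      set A' : ℝ := ((⌊a⌋₊ + 1 : ℕ) : ℝ) with hA'
      set R' : ℝ := ((⌈r⌉₊ : ℕ) : ℝ) with hR'
      have hA0 : 0 ≤ A' := Nat.cast_nonneg _
      have hR0 : 0 ≤ R' := Nat.cast_nonneg _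
      set W := (J : ℝ) ^ 6 * Y with hW
      have h1 : A' * d + 1 ≤ 18 * ((J : ℝ) ^ 3 * W) := by
        have e1 : A' * d ≤ (17 * W) * (J : ℝ) ^ 3 :=
          mul_le_mul hA hd3r (by linarith) (by linarith)
        have e2 : 1 ≤ (J : ℝ) ^ 3 * W := by nlinarith
        linarith
      have h2 : R' + 1 ≤ 6 * W := by linarith
      have h3 : (A' * d + 1) * (R' + 1) ≤ (18 * ((J : ℝ) ^ 3 * W)) * (6 * W) :=
        mul_le_mul h1 h2 (by linarith) (by positivity)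
      have h4 : (d : ℝ) ≤ (J : ℝ) ^ 3 * W * W := by
        have e1 : (J : ℝ) ^ 3 ≤ (J : ℝ) ^ 3 * W := le_mul_of_one_le_right (by linarith) hJY
        have e2 : (J : ℝ) ^ 3 * W ≤ (J : ℝ) ^ 3 * W * W :=
          le_mul_of_one_le_right (by nlinarith) hJY
        linarith
      calc (d : ℝ) + (A' * d + 1) * (R' + 1)
          ≤ (J : ℝ) ^ 3 * W * W + (18 * ((J : ℝ) ^ 3 * W)) * (6 * W) := add_le_add h4 h3
        _ = 109 * (J : ℝ) ^ 39 * ℓ ^ 2 * (E ^ 2) ^ 2 := by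
            rw [hW, hY]
            ring
        _ = 109 * (J : ℝ) ^ 39 * ℓ ^ 2 * Real.exp (2 * ((J : ℝ) * Real.log J + 2 * J)) := by
            rw [hE2, ← Real.exp_nat_mul]
            norm_num
        _ ≤ N := hfin
    exact_mod_cast hgoal

end Pool.Agent.Run7.h194.LW
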