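import Pool.Agent.Run7.h194.LW.BAS

/-!
# Piece PAR of the project LW (MP_efea25_an): the parity of the all-ones polynomial
-/

set_option autoImplicit false

open Polynomial Finset

namespace Pool.Agent.Run7.h194.LW

open Pool.Agent.Run7.h865.LW

theorem B_dvd_pow (J n : ℕ) (hn : J * (J - 1) / 2 ≤ n) :
    B J ∣ (1 - X ^ (J - 1).factorial) ^ n := by
  have h1 : B J ∣ (1 - X ^ (J - 1).factorial) ^ (J * (J - 1) / 2) := by
    rw [← sum_exp, ← prod_pow_eq_pow_sum, B]
    apply prod_dvd_prod_of_dvd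
    intro k hk
    rw [mem_range] at hk
    rcases Nat.eq_or_lt_of_le (Nat.le_sub_one_of_lt hk) with h | h
    · rw [h, Nat.sub_self, pow_zero, pow_zero]
    · apply pow_dvd_pow_of_dvd
      obtain ⟨c, hc⟩ := Nat.dvd_factorial (Nat.succ_pos k) (show k + 1 ≤ J - 1 by omega)
      rw [hc, pow_mul]
      simpa using sub_dvd_pow_sub_pow (1 : ℤ[X]) (X ^ (k + 1)) c
  exact h1.trans (pow_dvd_pow _ hn)

theorem t_PAR : S_PAR := by
  intro J N ν hJ hN hν
  set Q := (J - 1).factorial with hQ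
  have hQ0 : 0 < Q := Nat.factorial_pos _
  have h2 : J * (J - 1) / 2 ≤ 2 ^ ν - 1 := by
    have : J * (J - 1) / 2 ≤ J * J :=
      (Nat.div_le_self _ _).trans (Nat.mul_le_mul_left _ (Nat.sub_le _ _))
    omega
  obtain ⟨H, hH⟩ := B_dvd_pow J (2 ^ ν - 1) h2
  rw [← hQ] at hH
  have hV : (1 - X : ℤ[X]) * ∑ i ∈ range Q, X ^ i = 1 - X ^ Q := by
    have := mul_neg_geom_sum (X : ℤ[X]) Q
    exact this
  have hν1 : 2 ^ ν = (2 ^ ν - 1) + 1 := by
    have := Nat.one_le_two_pow (n := ν)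
    omega
  set V : ℤ[X] := ∑ i ∈ range Q, X ^ i with hVd
  have hBG : (1 - X : ℤ[X]) * (B J * (H * V)) = (1 - X ^ Q) ^ (2 ^ ν) := by
    rw [hν1, pow_succ, hH, ← hV]
    ring
  have hne1 : (1 - X ^ Q : ℤ[X]) ≠ 0 := by
    have := one_sub_ne (Q - 1)
    rwa [Nat.sub_add_cancel hQ0] at this
  have hprod : (1 - X : ℤ[X]) * (B J * (H * V)) ≠ 0 := by
    rw [hBG]
    exact pow_ne_zero _ hne1
  have hBne : B J ≠ 0 := B_ne J
  have hGne : H * V ≠ 0 := by
    intro h
    apply hprod
    rw [h, mul_zero, mul_zero]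
  have h1X : (1 - X : ℤ[X]) ≠ 0 := by
    intro h
    apply hprod
    rw [h, zero_mul]
  refine ⟨H * V, ?_, ?_⟩
  · have e1 := congrArg natDegree hBG
    rw [natDegree_mul h1X (mul_ne_zero hBne hGne), natDegree_mul hBne hGne, natDegree_pow] at e1
    have e2 : (1 - X : ℤ[X]).natDegree = 1 := by
      have := nd_one_sub 0
      simpa using this
    have e3 : (1 - X ^ Q : ℤ[X]).natDegree = Q := by
      have := nd_one_sub (Q - 1)
      rwa [Nat.sub_add_cancel hQ0] at this
    rw [e2, e3] at e1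
    rw [D, hN]
    have e4 : Q * 2 ^ ν = 2 ^ ν * Q := mul_comm _ _
    omega
  · intro k
    have key : (map (Int.castRingHom (ZMod 2)) (∑ j ∈ range N, X ^ j - B J * (H * V))) = 0 := by
      have h1 : map (Int.castRingHom (ZMod 2)) ((1 - X : ℤ[X]) *
          (∑ j ∈ range N, X ^ j - B J * (H * V))) = 0 := by
        rw [mul_sub, hBG, mul_neg_geom_sum]
        simp only [Polynomial.map_sub, Polynomial.map_one, Polynomial.map_pow, map_X]
        have : CharP ((ZMod 2)[X]) 2 := inferInstance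
        rw [sub_pow_char_pow, one_pow, ← pow_mul, hN, sub_self]
      rw [Polynomial.map_mul] at h1
      rcases mul_eq_zero.1 h1 with h | h
      · exfalso
        have h5 := congrArg (fun p : (ZMod 2)[X] => p.coeff 0) h
        simp at h5
      · exact h
    have h6 := congrArg (fun p : (ZMod 2)[X] => p.coeff k) key
    simp only [coeff_map, coeff_zero, eq_intCast] at h6
    rw [ZMod.intCast_zmod_eq_zero_iff_dvd] at h6
    exact even_iff_two_dvd.2 (by exact_mod_cast h6)

end Pool.Agent.Run7.h194.LW
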